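import Mathlib

set_option autoImplicit false

/-!
# Strongly surjective sets of reals of regular uncountable size

Let `κ` be a regular uncountable cardinal and let `L` be a set of reals which maps monotonically
onto each of its subsets of size `κ`. Then `L` maps monotonically onto each of its nonempty subsets
of size at most `κ`. In particular, a `κ`-surjective set of reals of size `κ` is strongly
surjective; for `κ = ℵ₂` this answers the question.
-/

namespace Pool.Agent.Results.MP_8a117e_lc.KappaSurjective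

open Cardinal Set

/-- `L ↠ K`: there is a surjection of `L` onto `K` which preserves the order in the weak sense. -/
def Onto (L K : Set ℝ) : Prop := ∃ f : L → K, Monotone f ∧ Function.Surjective f

/-- `L` is strongly surjective: it maps onto each of its nonempty subsets. -/
def StronglySurjective (L : Set ℝ) : Prop := ∀ K ⊆ L, K.Nonempty → Onto L K

/-- `L` is `κ`-surjective: it has size at least `κ` and maps onto each of its subsets of
size `κ`. -/
def KSurjective (κ : Cardinal.{0}) (L : Set ℝ) : Prop :=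
  κ ≤ #L ∧ ∀ K ⊆ L, #K = κ → Onto L K

variable {κ : Cardinal.{0}}

theorem small_union (hκ : κ.IsRegular) (hω : ℵ₀ < κ) (S : ℚ → Set ℝ) (h : ∀ q, #(S q) < κ) :
    #(⋃ q, S q : Set ℝ) < κ := by
  refine (card_iUnion_lt_iff_forall_of_isRegular hκ ?_).2 h
  simpa using hω

theorem small_add (hκ : κ.IsRegular) {A B : Set ℝ} (hA : #A < κ) (hB : #B < κ) :
    #(A ∪ B : Set ℝ) < κ :=
  (mk_union_le A B).trans_lt (add_lt_of_lt hκ.aleph0_le hA hB)

/-- The part of a set with few elements on the left is small. -/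
theorem small_left (hκ : κ.IsRegular) (hω : ℵ₀ < κ) (M : Set ℝ) :
    #({x ∈ M | #(M ∩ Iio x : Set ℝ) < κ} : Set ℝ) < κ := by
  classical
  set S : Set ℝ := {x ∈ M | #(M ∩ Iio x : Set ℝ) < κ} with hS
  set T : ℚ → Set ℝ := fun q => if #(M ∩ Iio (q : ℝ) : Set ℝ) < κ then M ∩ Iio (q : ℝ) else ∅
    with hT
  have hTs : ∀ q, #(T q) < κ := by
    intro q
    simp only [hT]
    split_ifs with h
    · exact h
    · simpa using hκ.pos
  have hsub : S ⊆ (⋃ q, T q) ∪ {x | IsGreatest S x} := by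
    intro x hx
    by_cases h : ∃ y ∈ S, x < y
    · obtain ⟨y, hy, hxy⟩ := h
      obtain ⟨q, hq1, hq2⟩ := exists_rat_btwn hxy
      left
      refine mem_iUnion.2 ⟨q, ?_⟩
      have : #(M ∩ Iio (q : ℝ) : Set ℝ) < κ := by
        refine (mk_le_mk_of_subset ?_).trans_lt hy.2
        exact inter_subset_inter_right _ (Iio_subset_Iio hq2.le)
      simp only [hT, this, if_true]
      exact ⟨hx.1, hq1⟩
    · right
      push Not at h
      exact ⟨hx, fun y hy => h y hy⟩
  refine (mk_le_mk_of_subset hsub).trans_lt (small_add hκ (small_union hκ hω T hTs) ?_)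
  refine lt_of_le_of_lt ?_ (one_lt_aleph0.trans hω)
  rw [mk_le_one_iff_set_subsingleton]
  intro x hx y hy
  exact IsGreatest.unique hx hy

/-- The part of a set with few elements on the right is small. -/
theorem small_right (hκ : κ.IsRegular) (hω : ℵ₀ < κ) (M : Set ℝ) :
    #({x ∈ M | #(M ∩ Ioi x : Set ℝ) < κ} : Set ℝ) < κ := by
  classical
  set S : Set ℝ := {x ∈ M | #(M ∩ Ioi x : Set ℝ) < κ} with hS
  set T : ℚ → Set ℝ := fun q => if #(M ∩ Ioi (q : ℝ) : Set ℝ) < κ then M ∩ Ioi (q : ℝ) else ∅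
    with hT
  have hTs : ∀ q, #(T q) < κ := by
    intro q
    simp only [hT]
    split_ifs with h
    · exact h
    · simpa using hκ.pos
  have hsub : S ⊆ (⋃ q, T q) ∪ {x | IsLeast S x} := by
    intro x hx
    by_cases h : ∃ y ∈ S, y < x
    · obtain ⟨y, hy, hxy⟩ := h
      obtain ⟨q, hq1, hq2⟩ := exists_rat_btwn hxy
      left
      refine mem_iUnion.2 ⟨q, ?_⟩
      have : #(M ∩ Ioi (q : ℝ) : Set ℝ) < κ := by
        refine (mk_le_mk_of_subset ?_).trans_lt hy.2
        exact inter_subset_inter_right _ (Ioi_subset_Ioi hq1.le)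
      simp only [hT, this, if_true]
      exact ⟨hx.1, hq2⟩
    · right
      push Not at h
      exact ⟨hx, fun y hy => h y hy⟩
  refine (mk_le_mk_of_subset hsub).trans_lt (small_add hκ (small_union hκ hω T hTs) ?_)
  refine lt_of_le_of_lt ?_ (one_lt_aleph0.trans hω)
  rw [mk_le_one_iff_set_subsingleton]
  intro x hx y hy
  exact IsLeast.unique hx hy

/-- A subset of size `κ` every element of which has `κ` elements on its left. -/
theorem exists_left (hκ : κ.IsRegular) (hω : ℵ₀ < κ) {L : Set ℝ} (hL : κ ≤ #L) :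
    ∃ M ⊆ L, #M = κ ∧ ∀ x ∈ M, κ ≤ #(M ∩ Iio x : Set ℝ) := by
  obtain ⟨M₀, hM₀, hcard⟩ := le_mk_iff_exists_subset.1 hL
  set S : Set ℝ := {x ∈ M₀ | #(M₀ ∩ Iio x : Set ℝ) < κ} with hS
  have hSs : #S < κ := small_left hκ hω M₀
  refine ⟨M₀ \ S, sdiff_subset.trans hM₀, le_antisymm ?_ ?_, ?_⟩
  · exact (mk_le_mk_of_subset sdiff_subset).trans hcard.le
  · by_contra h
    push Not at h
    have : #M₀ < κ := by
      refine (mk_le_mk_of_subset ?_).trans_lt (small_add hκ h hSs)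
      intro x hx
      by_cases hxS : x ∈ S
      · exact Or.inr hxS
      · exact Or.inl ⟨hx, hxS⟩
    exact absurd hcard this.ne
  · intro x hx
    by_contra h
    push Not at h
    apply hx.2
    refine ⟨hx.1, (mk_le_mk_of_subset ?_).trans_lt (small_add hκ h hSs)⟩
    intro y hy
    by_cases hyS : y ∈ S
    · exact Or.inr hyS
    · exact Or.inl ⟨⟨hy.1, hyS⟩, hy.2⟩

/-- A subset of size `κ` every element of which has `κ` elements on its right. -/
theorem exists_right (hκ : κ.IsRegular) (hω : ℵ₀ < κ) {L : Set ℝ} (hL : κ ≤ #L) :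
    ∃ M ⊆ L, #M = κ ∧ ∀ x ∈ M, κ ≤ #(M ∩ Ioi x : Set ℝ) := by
  obtain ⟨M₀, hM₀, hcard⟩ := le_mk_iff_exists_subset.1 hL
  set S : Set ℝ := {x ∈ M₀ | #(M₀ ∩ Ioi x : Set ℝ) < κ} with hS
  have hSs : #S < κ := small_right hκ hω M₀
  refine ⟨M₀ \ S, sdiff_subset.trans hM₀, le_antisymm ?_ ?_, ?_⟩
  · exact (mk_le_mk_of_subset sdiff_subset).trans hcard.le
  · by_contra h
    push Not at h
    have : #M₀ < κ := by
      refine (mk_le_mk_of_subset ?_).trans_lt (small_add hκ h hSs)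
      intro x hx
      by_cases hxS : x ∈ S
      · exact Or.inr hxS
      · exact Or.inl ⟨hx, hxS⟩
    exact absurd hcard this.ne
  · intro x hx
    by_contra h
    push Not at h
    apply hx.2
    refine ⟨hx.1, (mk_le_mk_of_subset ?_).trans_lt (small_add hκ h hSs)⟩
    intro y hy
    by_cases hyS : y ∈ S
    · exact Or.inr hyS
    · exact Or.inl ⟨⟨hy.1, hyS⟩, hy.2⟩

/-- Nonempty initial segments of a `κ`-surjective set have at least `κ` elements. -/
theorem initial (hκ : κ.IsRegular) (hω : ℵ₀ < κ) {L : Set ℝ} (hL : KSurjective κ L)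
    {a : ℝ} (ha : a ∈ L) : κ ≤ #(L ∩ Iic a : Set ℝ) := by
  obtain ⟨M, hM, hcard, hleft⟩ := exists_left hκ hω hL.1
  obtain ⟨g, hg, hgs⟩ := hL.2 M hM hcard
  refine (hleft (g ⟨a, ha⟩) (g ⟨a, ha⟩).2).trans ?_
  have hch : ∀ m : (M ∩ Iio ((g ⟨a, ha⟩ : M) : ℝ) : Set ℝ), ∃ l : (L ∩ Iic a : Set ℝ),
      (g ⟨l, l.2.1⟩ : ℝ) = m := by
    rintro ⟨m, hm, hma⟩
    obtain ⟨l, hl⟩ := hgs ⟨m, hm⟩
    have hla : (l : ℝ) ≤ a := by
      by_contra hcon
      push Not at hcon
      have h1 : g ⟨a, ha⟩ ≤ g l := hg (show (⟨a, ha⟩ : L) ≤ l from hcon.le)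
      rw [hl] at h1
      exact absurd hma (not_lt.2 h1)
    exact ⟨⟨l, l.2, hla⟩, congrArg Subtype.val hl⟩
  choose f hf using hch
  refine mk_le_of_injective (f := f) ?_
  intro x y hxy
  have := (hf x).symm.trans ((congrArg (fun l : (L ∩ Iic a : Set ℝ) => (g ⟨l, l.2.1⟩ : ℝ))
    hxy).trans (hf y))
  exact Subtype.ext this

/-- Nonempty final segments of a `κ`-surjective set have at least `κ` elements. -/
theorem final (hκ : κ.IsRegular) (hω : ℵ₀ < κ) {L : Set ℝ} (hL : KSurjective κ L)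
    {a : ℝ} (ha : a ∈ L) : κ ≤ #(L ∩ Ici a : Set ℝ) := by
  obtain ⟨M, hM, hcard, hright⟩ := exists_right hκ hω hL.1
  obtain ⟨g, hg, hgs⟩ := hL.2 M hM hcard
  refine (hright (g ⟨a, ha⟩) (g ⟨a, ha⟩).2).trans ?_
  have hch : ∀ m : (M ∩ Ioi ((g ⟨a, ha⟩ : M) : ℝ) : Set ℝ), ∃ l : (L ∩ Ici a : Set ℝ),
      (g ⟨l, l.2.1⟩ : ℝ) = m := by
    rintro ⟨m, hm, hma⟩
    obtain ⟨l, hl⟩ := hgs ⟨m, hm⟩
    have hla : a ≤ (l : ℝ) := by
      by_contra hcon
      push Not at hcon
      have h1 : g l ≤ g ⟨a, ha⟩ := hg (show l ≤ (⟨a, ha⟩ : L) from hcon.le)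
      rw [hl] at h1
      exact absurd hma (not_lt.2 h1)
    exact ⟨⟨l, l.2, hla⟩, congrArg Subtype.val hl⟩
  choose f hf using hch
  refine mk_le_of_injective (f := f) ?_
  intro x y hxy
  have := (hf x).symm.trans ((congrArg (fun l : (L ∩ Ici a : Set ℝ) => (g ⟨l, l.2.1⟩ : ℝ))
    hxy).trans (hf y))
  exact Subtype.ext this

/-- For every element of a `κ`-surjective set, some smaller real has at least `κ` elements of the
set on its left. -/
theorem exists_cut (hκ : κ.IsRegular) (hω : ℵ₀ < κ) {L : Set ℝ} (hL : KSurjective κ L)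
    {k : ℝ} (hk : k ∈ L) : ∃ b < k, κ ≤ #(L ∩ Iic b : Set ℝ) := by
  classical
  by_contra hcon
  push Not at hcon
  have h1 := initial hκ hω hL hk
  refine absurd h1 (not_le.2 ?_)
  set T : ℚ → Set ℝ := fun q => if (q : ℝ) < k then L ∩ Iic (q : ℝ) else ∅ with hT
  have hTs : ∀ q, #(T q) < κ := by
    intro q
    simp only [hT]
    split_ifs with h
    · exact hcon q h
    · simpa using hκ.pos
  have hsub : L ∩ Iic k ⊆ (⋃ q, T q) ∪ {k} := by
    rintro x ⟨hxL, hxk⟩
    rcases eq_or_lt_of_le (show x ≤ k from hxk) with h | h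
    · exact Or.inr h
    · obtain ⟨q, hq1, hq2⟩ := exists_rat_btwn h
      left
      refine mem_iUnion.2 ⟨q, ?_⟩
      simp only [hT, hq2, if_true]
      exact ⟨hxL, hq1.le⟩
  refine (mk_le_mk_of_subset hsub).trans_lt (small_add hκ (small_union hκ hω T hTs) ?_)
  rw [mk_singleton]
  exact one_lt_aleph0.trans hω

/-- A `κ`-surjective set maps onto each of its nonempty subsets of size less than `κ`. -/
theorem onto_small (hκ : κ.IsRegular) (hω : ℵ₀ < κ) {L : Set ℝ} (hL : KSurjective κ L)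
    {K : Set ℝ} (hK : K ⊆ L) (hne : K.Nonempty) (hcard : #K < κ) : Onto L K := by
  classical
  obtain ⟨k₀, hk₀⟩ := hne
  obtain ⟨b, hb, hbig⟩ := exists_cut hκ hω hL (hK hk₀)
  obtain ⟨M, hM, hMc⟩ := le_mk_iff_exists_subset.1 hbig
  -- the auxiliary set `Q`
  have hQ : #(M ∪ K : Set ℝ) = κ := by
    apply le_antisymm
    · refine (mk_union_le M K).trans ?_
      rw [hMc]
      exact (add_le_of_le hκ.aleph0_le le_rfl hcard.le)
    · rw [← hMc]
      exact mk_le_mk_of_subset subset_union_left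
  have hQL : M ∪ K ⊆ L := union_subset (hM.trans inter_subset_left) hK
  obtain ⟨h, hh, hhs⟩ := hL.2 (M ∪ K) hQL hQ
  -- the fibres over elements of `K` above `b`
  obtain ⟨l₀, hl₀⟩ := hhs ⟨k₀, Or.inr hk₀⟩
  have hfin : κ ≤ #(L ∩ Ici (l₀ : ℝ) : Set ℝ) := final hκ hω hL l₀.2
  have hmem : ∀ l : L, (l₀ : ℝ) ≤ l → (h l : ℝ) ∈ K := by
    intro l hl
    have h1 : h l₀ ≤ h l := hh (show l₀ ≤ l from hl)
    rcases (h l).2 with h2 | h2
    · have h3 : (h l : ℝ) ≤ b := (hM h2).2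
      have h4 : (h l₀ : ℝ) = k₀ := congrArg Subtype.val hl₀
      have h5 : (h l₀ : ℝ) ≤ h l := h1
      rw [h4] at h5
      exact absurd (hb.trans_le h5) (not_lt.2 h3)
    · exact h2
  have hfib : ∃ k ∈ K, κ ≤ #({x : ℝ | ∃ hx : x ∈ L, (h ⟨x, hx⟩ : ℝ) = k} : Set ℝ) := by
    by_contra hcon
    push Not at hcon
    refine absurd hfin (not_le.2 ?_)
    have hsub : L ∩ Ici (l₀ : ℝ) ⊆
        ⋃ k : K, {x : ℝ | ∃ hx : x ∈ L, (h ⟨x, hx⟩ : ℝ) = k} := by
      rintro x ⟨hx, hxl⟩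
      exact mem_iUnion.2 ⟨⟨h ⟨x, hx⟩, hmem ⟨x, hx⟩ hxl⟩, hx, rfl⟩
    refine (mk_le_mk_of_subset hsub).trans_lt ?_
    refine (card_iUnion_lt_iff_forall_of_isRegular hκ ?_).2 ?_
    · exact hcard
    · intro k
      exact hcon k k.2
  obtain ⟨k, hk, hkbig⟩ := hfib
  set A : Set ℝ := {x : ℝ | ∃ hx : x ∈ L, (h ⟨x, hx⟩ : ℝ) = k} with hA
  obtain ⟨B, hBA, hBc⟩ := le_mk_iff_exists_subset.1 hkbig
  -- preimages
  have hpre : ∀ x : K, ∃ l : L, (h l : ℝ) = x := by
    intro x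
    obtain ⟨l, hl⟩ := hhs ⟨x, Or.inr x.2⟩
    exact ⟨l, congrArg Subtype.val hl⟩
  choose r hr using hpre
  set K' : Set ℝ := B ∪ range (fun x : K => (r x : ℝ)) with hK'
  have hK'L : K' ⊆ L := by
    rintro x (hx | ⟨y, rfl⟩)
    · exact (hBA hx).1
    · exact (r y).2
  have hK'c : #K' = κ := by
    apply le_antisymm
    · refine (mk_union_le _ _).trans ?_
      rw [hBc]
      exact add_le_of_le hκ.aleph0_le le_rfl (mk_range_le.trans hcard.le)
    · rw [← hBc]
      exact mk_le_mk_of_subset subset_union_left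
  obtain ⟨f, hf, hfs⟩ := hL.2 K' hK'L hK'c
  have hval : ∀ x : K', (h ⟨x, hK'L x.2⟩ : ℝ) ∈ K := by
    rintro ⟨x, hx | ⟨y, rfl⟩⟩
    · obtain ⟨hxL, hxk⟩ := hBA hx
      exact hxk ▸ hk
    · have := hr y
      show (h ⟨(r y : ℝ), _⟩ : ℝ) ∈ K
      have e : (⟨(r y : ℝ), hK'L (Or.inr ⟨y, rfl⟩)⟩ : L) = r y := rfl
      rw [e, this]
      exact y.2
  refine ⟨fun l => ⟨h ⟨f l, hK'L (f l).2⟩, hval (f l)⟩, ?_, ?_⟩
  · intro x y hxy
    exact hh (show (⟨f x, hK'L (f x).2⟩ : L) ≤ ⟨f y, hK'L (f y).2⟩ from hf hxy)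
  · intro x
    obtain ⟨l, hl⟩ := hfs ⟨(r x : ℝ), Or.inr ⟨x, rfl⟩⟩
    refine ⟨l, Subtype.ext ?_⟩
    show (h ⟨f l, _⟩ : ℝ) = x
    have e : (⟨f l, hK'L (f l).2⟩ : L) = r x := by
      apply Subtype.ext
      show (f l : ℝ) = (r x : ℝ)
      rw [hl]
    rw [e]
    exact hr x

/-- Let `κ` be a regular uncountable cardinal (for instance `ℵ₂`) and let `L` be a
`κ`-surjective set of reals. Then `L` maps onto each of its nonempty subsets of size at most
`κ`; in particular, if `L` has size `κ` then `L` is strongly surjective. -/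
theorem result (κ : Cardinal.{0}) (hκ : κ.IsRegular) (hω : ℵ₀ < κ) (L : Set ℝ)
    (hL : KSurjective κ L) :
    (∀ K ⊆ L, K.Nonempty → #K ≤ κ → Onto L K) ∧ (#L = κ → StronglySurjective L) := by
  have key : ∀ K ⊆ L, K.Nonempty → #K ≤ κ → Onto L K := by
    intro K hK hne hc
    rcases eq_or_lt_of_le hc with h | h
    · exact hL.2 K hK h
    · exact onto_small hκ hω hL hK hne h
  refine ⟨key, fun hc K hK hne => key K hK hne ?_⟩
  rw [← hc]
  exact mk_le_mk_of_subset hK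

/-- The case of `ℵ₂`. -/
theorem aleph_two (L : Set ℝ) (hc : #L = ℵ_ 2) (hL : KSurjective (ℵ_ 2) L) :
    StronglySurjective L := by
  have h2 : (ℵ_ 2).IsRegular := by
    have : (2 : Ordinal) = Order.succ 1 := by
      rw [← one_add_one_eq_two, Order.succ_eq_add_one]
    rw [this]
    exact isRegular_aleph_succ 1
  exact (result (ℵ_ 2) h2 (by rw [← aleph_zero, aleph_lt_aleph]; exact zero_lt_two) L hL).2 hc

end Pool.Agent.Results.MP_8a117e_lc.KappaSurjective
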